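import Pool.Agent.L0h86.MBInner

/-!
# MP_d967a3_an, Q1: convex billiard tables of `ℝⁿ`, `n ≥ 3`, other than ellipsoids, whose billiard map
has invariant hypersurfaces in the space of oriented lines

The definitions used by the statement (`Euc`, `IsTable`, `IsOuterNormal`, `outerNormal`,
`IsEllipsoid`, `lines`, `lineTangent`, `lineThrough`, `exitPoint`, `billiardMap`,
`IsInvariantHypersurface`) are in the starting file `Pool/Agent/H703R3/MBDefs.lean`.

The table is `‖x‖² + x₂⁴ ≤ 1` (coordinates `x₀, …, x_{n-1}`), and the hypersurfaces are the level sets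
of the angular momentum `x₀ v₁ - x₁ v₀`.
-/

set_option autoImplicit false

open Set

namespace Pool.Agent.Results.MP_d967a3_an.InnerHypersurface

open Pool.Agent.H703R3.MB

/-- For every `n ≥ 3` there is a billiard table in `ℝⁿ` (compact, strictly convex, with smooth
boundary of positive curvature) that is not an ellipsoid, whose billiard map is a bijection of the
space of oriented lines meeting the interior, and such that for every `c ∈ (0, 1)` the set of the
oriented lines `(p, v)` with `p₀ v₁ - p₁ v₀ = c` is an invariant hypersurface. -/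
theorem result : ∀ (n : ℕ) (hn : 3 ≤ n), ∃ Ω : Set (Euc n), IsTable Ω ∧ ¬ IsEllipsoid Ω ∧
    BijOn (billiardMap Ω) (lines Ω) (lines Ω) ∧
    ∀ c : ℝ, 0 < c → c < 1 → IsInvariantHypersurface Ω
      {l | l ∈ lines Ω ∧ l.1 ⟨0, by omega⟩ * l.2 ⟨1, by omega⟩ -
        l.1 ⟨1, by omega⟩ * l.2 ⟨0, by omega⟩ = c} :=
  fun n hn => Pool.Agent.L0h86.MBI.q1 n hn

end Pool.Agent.Results.MP_d967a3_an.InnerHypersurface
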